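import Pool.Agent.H77.Sym2

set_option autoImplicit false

/-- Every metrizable group topology on the group of all permutations of `ℤ` has
`{Stab(F) ∩ N : F finite}` as a neighbourhood base of the identity, for `N` one of: the trivial
subgroup, the finitary even permutations, the finitary permutations, the whole group. -/
theorem Pool.Agent.Results.MP_8d0ff6_al.FourTopologies.result
    [TopologicalSpace (Equiv.Perm ℤ)] [IsTopologicalGroup (Equiv.Perm ℤ)]
    [TopologicalSpace.MetrizableSpace (Equiv.Perm ℤ)] :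
    ∃ N ∈ ({{1}, Pool.Agent.H77.Sym.evenFin ℤ, Pool.Agent.H77.Sym.finitary ℤ, Set.univ} :
        Set (Set (Equiv.Perm ℤ))),
      ∀ U : Set (Equiv.Perm ℤ), U ∈ nhds (1 : Equiv.Perm ℤ) ↔
        ∃ F : Finset ℤ, {g | g ∈ N ∧ ∀ x ∈ F, g x = x} ⊆ U :=
  Pool.Agent.H77.Sym.main
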